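import Pool.Agent.H32.NS
import Pool.Agent.H32.UFA

open Set Filter

namespace Pool.Agent.Results.MP_c54df4_lc.NoDivisor

open Pool.Agent.H32.NS Pool.Agent.H32

theorem result : ∀ T : Type, ∃ (I : Type) (V : Ultrafilter I), Enl V T ∧ Enl V ℕ+ ∧
    ∃ F G : Ultrafilter ℕ+, TDvd F G ∧ ∃ y ∈ monad V G, ¬ ∃ x ∈ monad V F, ∃ z, y = x * z := by
  intro T
  let G : Ultrafilter ℕ+ := (hyperfilter ℕ).map fun n => ⟨n.factorial, n.factorial_pos⟩
  let e := Equiv.pnatEquivNat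
  obtain ⟨I, W, h1, h2⟩ := exists_enl T G
  refine ⟨_, _, h1, h2, (UFA.tens (hyperfilter ℕ) (G.map e)).map e.symm, G, fun A hA => ?_,
    (Prod.fst : ℕ+ × I → ℕ+), fun A hA => mem_of_superset (f := (G : Filter ℕ+)) hA
      fun n hn => univ_mem' (f := (W : Filter I)) fun _ => hn, ?_⟩
  · obtain ⟨a, ha⟩ := Ultrafilter.nonempty_of_mem hA
    exact Nat.hyperfilter_le_atTop ((eventually_ge_atTop (a : ℕ)).mono fun n hn =>
      ⟨a, ha, PNat.dvd_iff.2 (Nat.dvd_factorial a.pos hn)⟩)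
  rintro ⟨x, hx, z, hz⟩
  induction x using Germ.inductionOn with | h x => ?_
  induction z using Germ.inductionOn with | h z => ?_
  have h3 : {n | {i | n = x (n, i) * z (n, i)} ∈ W} ∈ G := Germ.coe_eq.1 hz
  have : ∀ n : ℕ+, ∃ a, {i | n = x (n, i) * z (n, i)} ∈ W → {i | x (n, i) = a} ∈ W := fun n => by
    by_cases h : {i | n = x (n, i) * z (n, i)} ∈ W
    · obtain ⟨a, -, ha⟩ := Ultrafilter.eq_pure_of_finite_mem (f := W.map fun i => x (n, i))
        (finite_Iic n) (mem_of_superset (f := (W : Filter I)) h fun i hi =>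
          PNat.le_of_dvd ⟨_, hi⟩)
      exact ⟨a, fun _ => show {a} ∈ W.map fun i => x (n, i) from ha ▸ rfl⟩
    · exact ⟨1, fun k => (h k).elim⟩
  choose f hf using this
  refine UFA.tens_not_RK (a := hyperfilter ℕ) (fun n k => (finite_singleton n).notMem_hyperfilter
    (k ▸ rfl)) (G.map e) ⟨e ∘ f ∘ e.symm, (UFA.eq_of_sub fun s hs => ?_).symm⟩
  have h4 : {n | {i | x (n, i) ∈ e ⁻¹' s} ∈ W} ∈ G := hx (e ⁻¹' s) (by
    simpa [Ultrafilter.mem_map, preimage_preimage] using hs)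
  refine mem_of_superset (f := (G : Filter ℕ+)) (inter_mem h3 h4) fun n hn => ?_
  obtain ⟨i, i1, i2⟩ := Ultrafilter.nonempty_of_mem (inter_mem (hf n hn.1) hn.2)
  simpa [← show x (n, i) = f n from i1] using i2

end Pool.Agent.Results.MP_c54df4_lc.NoDivisor
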